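import Pool.Agent.KS6_76.NLM.Main

/-!
# Recognising the graphs near the graphs of NLC-width at most `k`, and the critical ones

For every fixed `k` it can be decided in polynomial time whether a graph has NLC-width at most `k`
(this is the problem `REC_k`).  We show more: for all fixed `k`, `p`, `s` it can be decided in
polynomial time whether a graph can be transformed into a graph of NLC-width at most `k` by at most
`s` modifications, where a modification is the deletion of a vertex, the change of the adjacency of
two vertices, or a flip with respect to a partition of the vertices into `p` parts (all adjacencies
between or in some of the parts are changed); for `s = 0` this is `REC_k`.  Also the graphs which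
are critical for NLC-width at most `k` (the NLC-width is greater than `k`, but at most `k` after the
deletion of any vertex) can be recognised in polynomial time.

Proof: having NLC-width at most `k` is a property that has a gluing congruence of finite index (this is the
hard theorem of the library).  We show that the class of all properties whose gluing congruence has
finite index is closed under Boolean operations and under the modifications above, and that the
graphs near the graphs of bounded NLC-width have decompositions of bounded width.

Definitions: `nlcWidth` (`Pool.Graph.R_seed8.R545.Mw.Defs`), `matGraph` and `InPP` (the graph with a
given adjacency matrix, and polynomial time decidability, of the library),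
`Pool/Agent/KS6_76/COL/Near.lean` (`flip`), `Pool/Agent/KS6_76/NLM/Defs.lean` (`toggle`, `Nearby`,
`NlcCritical`).
-/

namespace Pool.Agent.Results.MP_8b2ae4_lc.NearbyGraphs

open Pool.Agent.R545.Mw Pool.Agent.KS6_76.NLM Pool.Agent.H622R2 Pool.Agent.NPC

/-- **`REC_k` is in `P` for every fixed `k`**, and so are the following two problems for all fixed
`k`, `p` and `s`: to decide whether a graph can be transformed into a graph of NLC-width at most `k`
by at most `s` modifications (deletion of a vertex, change of the adjacency of two vertices, flip
with respect to a partition into `p` parts), and to decide whether a graph is critical for
NLC-width at most `k`. -/
theorem result :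
    (∀ k : ℕ, InPP (fun M : List (List Bool) => nlcWidth (matGraph M) ≤ k)) ∧
    (∀ k p s : ℕ, InPP (fun M : List (List Bool) =>
      Nearby p (fun _ G => nlcWidth G ≤ k) s (Fin M.length) (matGraph M))) ∧
    (∀ k : ℕ, InPP (fun M : List (List Bool) => NlcCritical k (Fin M.length) (matGraph M))) :=
  ⟨fun k => nearby_inPP k 0 0, nearby_inPP, critical_inPP⟩

end Pool.Agent.Results.MP_8b2ae4_lc.NearbyGraphs
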